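import Pool.Agent.U133.HL.Cub

set_option autoImplicit false
set_option exponentiation.threshold 100000

/-!
# Integral points beyond the fourth power of the coefficients
-/

namespace Pool.Agent.U133.HL

open Finset Pool.Agent.U133.HP Pool.Agent.U133.SE Pool.Agent.U133.WR

open Pool.Agent.U133.GP (Rt mem_Rt card_Rt SameClass)

variable {A B : ℤ}

/-- the window between the two ranges -/
lemma window (hD : 4 * A ^ 3 + 27 * B ^ 2 ≠ 0) {H : ℕ} (hH : 1 ≤ H) (hA : |A| ≤ H)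
    (hB : |B| ≤ H) (S : Finset ℤ)
    (hS : ∀ x ∈ S, (2 * (H : ℝ)) ^ 4 ≤ (x : ℝ) ∧ (x : ℝ) ≤ (2 * (H : ℝ)) ^ 19688)
    (hcl : ∀ x ∈ S, ∀ y ∈ S, SameClass (cub A B) x y) : S.card ≤ 40 := by
  have hH1 : (1 : ℝ) ≤ H := by exact_mod_cast hH
  have h2H : (1 : ℝ) ≤ 2 * H := by linarith
  have h2H2 : (2 : ℝ) ≤ 2 * H := by linarith
  have hA' : |(A : ℝ)| ≤ H := by exact_mod_cast hA
  have hB' : |(B : ℝ)| ≤ H := by exact_mod_cast hB
  have hD1 : (1 : ℝ) ≤ |((4 * A ^ 3 + 27 * B ^ 2 : ℤ) : ℝ)| := by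
    have := Int.one_le_abs hD
    have h' : ((1 : ℤ) : ℝ) ≤ ((|4 * A ^ 3 + 27 * B ^ 2| : ℤ) : ℝ) := by exact_mod_cast this
    rwa [Int.cast_one, Int.cast_abs] at h'
  have hD2 : |((4 * A ^ 3 + 27 * B ^ 2 : ℤ) : ℝ)| ≤ 31 * (H : ℝ) ^ 3 := by
    have h1 : |(A : ℝ)| ^ 3 ≤ (H : ℝ) ^ 3 := pow_le_pow_left₀ (abs_nonneg _) hA' 3
    have h2 : |(B : ℝ)| ^ 2 ≤ (H : ℝ) ^ 2 := pow_le_pow_left₀ (abs_nonneg _) hB' 2
    have h3 : (H : ℝ) ^ 2 ≤ (H : ℝ) ^ 3 := pow_le_pow_right₀ hH1 (by norm_num)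
    push_cast
    calc |4 * (A : ℝ) ^ 3 + 27 * (B : ℝ) ^ 2| ≤ |4 * (A : ℝ) ^ 3| + |27 * (B : ℝ) ^ 2| :=
          abs_add_le _ _
      _ = 4 * |(A : ℝ)| ^ 3 + 27 * |(B : ℝ)| ^ 2 := by
          rw [abs_mul, abs_mul, abs_pow, abs_pow]; norm_num
      _ ≤ _ := by linarith
  set D : ℝ := |((4 * A ^ 3 + 27 * B ^ 2 : ℤ) : ℝ)| with hDdef
  have hD0 : 0 < D := by linarith
  set X : ℝ := (2 * (H : ℝ)) ^ 4 with hX
  set Y : ℝ := (2 * (H : ℝ)) ^ 19688 with hY
  have hX0 : 0 < X := by positivity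
  have hY0 : 0 < Y := by positivity
  have hXH : 16 * (H : ℝ) ≤ X := by
    rw [hX, mul_pow]
    have : (H : ℝ) ^ 1 ≤ (H : ℝ) ^ 4 := pow_le_pow_right₀ hH1 (by norm_num)
    rw [pow_one] at this
    linarith
  have hw1 : |(A : ℝ)| ≤ (X / 8) ^ 2 := by
    have : (2 * (H : ℝ)) ^ 2 ≤ (X / 8) ^ 2 := pow_le_pow_left₀ (by positivity) (by linarith) 2
    nlinarith
  have hw2 : |(B : ℝ)| ≤ (X / 8) ^ 3 := by
    have h1 : (2 * (H : ℝ)) ^ 3 ≤ (X / 8) ^ 3 := pow_le_pow_left₀ (by positivity) (by linarith) 3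
    have h2 : (2 * (H : ℝ)) ^ 1 ≤ (2 * (H : ℝ)) ^ 3 := pow_le_pow_right₀ h2H (by norm_num)
    rw [pow_one] at h2
    linarith
  have hz : 2 * (H : ℝ) ≤ 16 * X / (3 * D) := by
    rw [le_div_iff₀ (by positivity)]
    have h1 : 2 * (H : ℝ) * (3 * D) ≤ 2 * H * (3 * (31 * (H : ℝ) ^ 3)) := by gcongr
    have h2 : 2 * (H : ℝ) * (3 * (31 * (H : ℝ) ^ 3)) ≤ 16 * X := by
      rw [hX]
      have : 0 ≤ (H : ℝ) ^ 4 := by positivity
      nlinarith
    linarith
  refine growth (w := X / 8) hD (by positivity) hw1 hw2 Y 10 X hX0 (by linarith) ?_ S hS hcl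
  calc 16 * Y / (3 * D) ≤ 16 * Y / 3 := by
        refine div_le_div_of_nonneg_left (by positivity) (by norm_num) (by linarith)
    _ < 8 * Y := by linarith
    _ ≤ (2 * (H : ℝ)) ^ 3 * Y := by
        refine mul_le_mul_of_nonneg_right ?_ hY0.le
        calc (8 : ℝ) = 2 ^ 3 := by norm_num
          _ ≤ _ := pow_le_pow_left₀ (by norm_num) h2H2 3
    _ = (2 * (H : ℝ)) ^ 19691 := by rw [hY, ← pow_add]
    _ ≤ (2 * (H : ℝ)) ^ (3 ^ 10) := pow_le_pow_right₀ h2H (by norm_num)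
    _ ≤ _ := pow_le_pow_left₀ (by positivity) hz _

/-- one class, positive integers -/
lemma class_pos (hD : 4 * A ^ 3 + 27 * B ^ 2 ≠ 0) {H : ℕ} (hH : 1 ≤ H) (hA : |A| ≤ H)
    (hB : |B| ≤ H) (S : Finset ℤ) (hS : ∀ x ∈ S, (2 * (H : ℝ)) ^ 4 ≤ (x : ℝ))
    (hcl : ∀ x ∈ S, ∀ y ∈ S, SameClass (cub A B) x y) : S.card ≤ 48 := by
  classical
  have hH1 : (1 : ℝ) ≤ H := by exact_mod_cast hH
  have h1 := window hD hH hA hB (S.filter fun x => (x : ℝ) ≤ (2 * (H : ℝ)) ^ 19688)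
    (fun x hx => ⟨hS x (mem_filter.mp hx).1, (mem_filter.mp hx).2⟩)
    (fun x hx y hy => hcl x (mem_filter.mp hx).1 y (mem_filter.mp hy).1)
  have h2 := one_class hD hH hA hB (S.filter fun x => ¬ (x : ℝ) ≤ (2 * (H : ℝ)) ^ 19688) true
    (fun x hx => by
      have h3 := hS x (mem_filter.mp hx).1
      have h4 : (0 : ℝ) < (2 * (H : ℝ)) ^ 4 := by positivity
      have h5 := h4.trans_le h3
      rw [decide_eq_true_eq]
      exact_mod_cast h5)
    (fun x hx => by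
      have h3 := (mem_filter.mp hx).2
      rw [not_le] at h3
      exact h3.le.trans (le_abs_self _))
    (fun x hx y hy => hcl x (mem_filter.mp hx).1 y (mem_filter.mp hy).1)
  have h3 := card_filter_add_card_filter_not (s := S) (fun x : ℤ => (x : ℝ) ≤ (2 * (H : ℝ)) ^ 19688)
  omega

lemma neg_class {x y : ℤ} (h : SameClass (cub A B) x y) : SameClass (cub A (-B)) (-x) (-y) := by
  obtain ⟨b, hb, P, R, hR⟩ := h
  refine ⟨b, hb, P.comp (-Polynomial.X), -(R.comp (-Polynomial.X)), ?_⟩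
  have h1 := congrArg (fun P : Polynomial ℚ => P.comp (-Polynomial.X)) hR
  rw [cub_map] at h1 ⊢
  simp only [Polynomial.sub_comp, Polynomial.mul_comp, Polynomial.pow_comp, Polynomial.C_comp,
    Polynomial.X_comp, Polynomial.add_comp] at h1
  push_cast
  simp only [Polynomial.C_neg]
  linear_combination h1

/-- one class, integers of the same sign -/
lemma class_sgn (hD : 4 * A ^ 3 + 27 * B ^ 2 ≠ 0) {H : ℕ} (hH : 1 ≤ H) (hA : |A| ≤ H)
    (hB : |B| ≤ H) (S : Finset ℤ) (s0 : Bool) (hpos : ∀ x ∈ S, decide (0 < x) = s0)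
    (hS : ∀ x ∈ S, (2 * (H : ℝ)) ^ 4 ≤ |(x : ℝ)|)
    (hcl : ∀ x ∈ S, ∀ y ∈ S, SameClass (cub A B) x y) : S.card ≤ 48 := by
  classical
  cases s0
  · have h1 : (S.image Neg.neg).card ≤ 48 := by
      refine class_pos (A := A) (B := -B) (by rwa [neg_sq]) hH hA (by rwa [abs_neg]) _
        (fun x hx => ?_) (fun x hx y hy => ?_)
      · obtain ⟨z, hz, rfl⟩ := mem_image.mp hx
        have h2 : z ≤ 0 := by
          have := hpos z hz
          rw [decide_eq_false_iff_not] at this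
          omega
        have h3 := hS z hz
        have h4 : (z : ℝ) ≤ 0 := by exact_mod_cast h2
        rw [abs_of_nonpos h4] at h3
        push_cast
        exact h3
      · obtain ⟨z, hz, rfl⟩ := mem_image.mp hx
        obtain ⟨w, hw, rfl⟩ := mem_image.mp hy
        exact neg_class (hcl z hz w hw)
    rwa [card_image_of_injective _ neg_injective] at h1
  · refine class_pos hD hH hA hB S (fun x hx => ?_) hcl
    have h2 : 0 < x := by simpa using hpos x hx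
    have h4 : (0 : ℝ) < x := by exact_mod_cast h2
    have h3 := hS x hx
    rwa [abs_of_pos h4] at h3

/-- **All the cosets of `2 E_c(ℚ)`, for all the quadratic twists.** -/
theorem cosets4 (hD : 4 * A ^ 3 + 27 * B ^ 2 ≠ 0) {H : ℕ} (hH : 1 ≤ H) (hA : |A| ≤ H)
    (hB : |B| ≤ H) {c : ℤ} (hc : c ≠ 0) {A' B' : ℤ} (hA' : A' = A * c ^ 2) (hB' : B' = B * c ^ 3)
    (N : ℕ) (Q : Fin N → (EC A' B').Point)
    (hQ : ∀ P : (EC A' B').Point, ∃ i R, P = Q i + (R + R))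
    (S : Finset ℤ) (hS : ∀ x ∈ S, (2 * (H : ℝ)) ^ 4 ≤ |(x : ℝ)| ∧
      ∃ y : ℚ, c * y ^ 2 = x ^ 3 + A * x + B) : S.card ≤ 48 * N := by
  classical
  subst hA' hB'
  have hD' := D_twist hD hc
  have hcQ : (c : ℚ) ≠ 0 := by exact_mod_cast hc
  have hH1 : (1 : ℝ) ≤ H := by exact_mod_cast hH
  have h2H : (1 : ℝ) ≤ 2 * H := by linarith
  have hbig : ∀ x ∈ S, 2 * (H : ℝ) ≤ |(x : ℝ)| := by
    intro x hx
    refine le_trans ?_ (hS x hx).1
    calc 2 * (H : ℝ) = (2 * (H : ℝ)) ^ 1 := (pow_one _).symm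
      _ ≤ _ := pow_le_pow_right₀ h2H (by norm_num)
  -- the sign
  have hsgn : ∀ x ∈ S, decide (0 < x) = decide (0 < c) := by
    intro x hx
    obtain ⟨-, y, hy⟩ := hS x hx
    have hb := hbig x hx
    have hfx : ((x ^ 3 + A * x + B : ℤ) : ℚ) = c * y ^ 2 := by push_cast; exact hy.symm
    rw [decide_eq_decide]
    rcases lt_or_ge 0 (x : ℝ) with h0 | h0
    · rw [abs_of_pos h0] at hb
      have h1 := sign_pos hH hA hB hb
      have h2 : (0 : ℚ) < c * y ^ 2 := by rw [← hfx]; exact_mod_cast h1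
      have h3 : (0 : ℚ) < c := by
        by_contra hcc
        push Not at hcc
        have := mul_nonpos_of_nonpos_of_nonneg hcc (sq_nonneg y)
        linarith
      exact ⟨fun _ => by exact_mod_cast h3, fun _ => by exact_mod_cast h0⟩
    · rw [abs_of_nonpos h0] at hb
      have h1 := sign_neg hH hA hB hb
      have h2 : c * y ^ 2 < (0 : ℚ) := by rw [← hfx]; exact_mod_cast h1
      have h3 : (c : ℚ) < 0 := by
        by_contra hcc
        push Not at hcc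
        have := mul_nonneg hcc (sq_nonneg y)
        linarith
      have h4 : c < 0 := by exact_mod_cast h3
      have h5 : x ≤ 0 := by exact_mod_cast h0
      exact ⟨fun h => absurd h (not_lt.mpr h5), fun h => absurd h (not_lt.mpr h4.le)⟩
  have hex : ∀ x ∈ S, ∃ (i : Fin N) (y : ℚ) (h : (EC (A * c ^ 2) (B * c ^ 3)).Nonsingular
      ((c * x : ℤ) : ℚ) y) (R : (EC (A * c ^ 2) (B * c ^ 3)).Point),
      WeierstrassCurve.Affine.Point.some ((c * x : ℤ) : ℚ) y h = Q i + (R + R) := by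
    intro x hx
    obtain ⟨-, y, hy⟩ := hS x hx
    have h1 : ((c : ℚ) ^ 2 * y) ^ 2 = (((c * x : ℤ) : ℚ)) ^ 3 + ((A * c ^ 2 : ℤ) : ℚ) *
        ((c * x : ℤ) : ℚ) + ((B * c ^ 3 : ℤ) : ℚ) := by
      push_cast
      linear_combination (c : ℚ) ^ 3 * hy
    obtain ⟨i, R, h2⟩ := hQ (WeierstrassCurve.Affine.Point.some _ _ (nonsing hD' h1))
    exact ⟨i, _, nonsing hD' h1, R, h2⟩
  rcases S.eq_empty_or_nonempty with rfl | ⟨x₁, hx₁⟩
  · simp
  have hN : Nonempty (Fin N) := ⟨(hex x₁ hx₁).choose⟩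
  choose! i hi using hex
  have hfib : ∀ j : Fin N, (S.filter fun x => i x = j).card ≤ 48 := by
    intro j
    refine class_sgn hD hH hA hB _ _ (fun x hx => hsgn x (mem_filter.mp hx).1)
      (fun x hx => (hS x (mem_filter.mp hx).1).1) ?_
    intro x hx y hy
    by_cases hxy : x = y
    · subst hxy
      exact sameClass_of ⟨Polynomial.C (x : ℚ) - Polynomial.X, by
        rw [← sq, sub_self]; exact dvd_zero _⟩
    · obtain ⟨hx1, hx2⟩ := mem_filter.mp hx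
      obtain ⟨hy1, hy2⟩ := mem_filter.mp hy
      obtain ⟨u, hu, R, hR⟩ := hi x hx1
      obtain ⟨v, hv, R', hR'⟩ := hi y hy1
      have hne : ((c * x : ℤ) : ℚ) ≠ ((c * y : ℤ) : ℚ) := by
        intro h
        have h1 : c * x = c * y := by exact_mod_cast h
        exact hxy (mul_left_cancel₀ hc h1)
      refine twist_class hc (same hD' hu hv hne (R - R') ?_)
      rw [hR, hR', hx2, hy2]
      abel
  calc S.card = ∑ j : Fin N, (S.filter fun x => i x = j).card :=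
        card_eq_sum_card_fiberwise (fun x _ => mem_coe.mpr (mem_univ _))
    _ ≤ ∑ _j : Fin N, 48 := sum_le_sum fun j _ => hfib j
    _ = 48 * N := by rw [sum_const, card_univ, Fintype.card_fin, smul_eq_mul]; ring

/-- large integral points have large first coordinates -/
lemma first_large4 {H : ℕ} (hH : 1 ≤ H) (hA : |A| ≤ H) (hB : |B| ≤ H) {x y : ℤ}
    (h : y ^ 2 = x ^ 3 + A * x + B) (hl : (2 * (H : ℝ)) ^ 7 < max |(x : ℝ)| |(y : ℝ)|) :
    (2 * (H : ℝ)) ^ 4 ≤ |(x : ℝ)| := by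
  have hH1 : (1 : ℝ) ≤ H := by exact_mod_cast hH
  have h2H : (1 : ℝ) ≤ 2 * H := by linarith
  have hA' : |(A : ℝ)| ≤ H := by exact_mod_cast hA
  have hB' : |(B : ℝ)| ≤ H := by exact_mod_cast hB
  have hR : (y : ℝ) ^ 2 = (x : ℝ) ^ 3 + A * x + B := by exact_mod_cast h
  by_contra hcon
  push Not at hcon
  set T : ℝ := (2 * (H : ℝ)) ^ 4 with hT
  have hT2 : 2 * (H : ℝ) ≤ T := by
    calc 2 * (H : ℝ) = (2 * (H : ℝ)) ^ 1 := (pow_one _).symm
      _ ≤ _ := pow_le_pow_right₀ h2H (by norm_num)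
  have hT0 : 0 < T := by linarith
  have hxT : |(x : ℝ)| ≤ T := hcon.le
  have hyT : (y : ℝ) ^ 2 ≤ (2 * (H : ℝ)) ^ 13 := by
    have e : (2 * (H : ℝ)) ^ 13 = 2 * H * T ^ 3 := by
      rw [hT, ← pow_mul, ← pow_succ']
    rw [e, hR]
    have h1 : (x : ℝ) ^ 3 ≤ T ^ 3 := by
      have : (x : ℝ) ^ 3 ≤ |(x : ℝ)| ^ 3 := by
        rw [← abs_pow]; exact le_abs_self _
      exact this.trans (pow_le_pow_left₀ (abs_nonneg _) hxT 3)
    have h2 : (A : ℝ) * x ≤ H * T := by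
      calc (A : ℝ) * x ≤ |(A : ℝ) * x| := le_abs_self _
        _ = |(A : ℝ)| * |(x : ℝ)| := abs_mul _ _
        _ ≤ _ := mul_le_mul hA' hxT (abs_nonneg _) (by linarith)
    have h3 : (B : ℝ) ≤ H := (le_abs_self _).trans hB'
    have h4 : 2 * H * T ≤ T ^ 2 := by nlinarith
    have h5 : (2 : ℝ) ≤ T := by linarith
    have h6 : T ^ 2 * 2 ≤ T ^ 3 := by nlinarith [sq_nonneg T]
    have h7 : T ^ 3 * 1 ≤ T ^ 3 * H := mul_le_mul_of_nonneg_left hH1 (by positivity)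
    have h8 : H * 2 ≤ H * T := mul_le_mul_of_nonneg_left h5 (by linarith)
    nlinarith
  have h1 : |(x : ℝ)| ≤ (2 * (H : ℝ)) ^ 7 :=
    hxT.trans (pow_le_pow_right₀ h2H (by norm_num))
  have h2 : |(y : ℝ)| ≤ (2 * (H : ℝ)) ^ 7 := by
    refine abs_le_of_sq_le_sq (hyT.trans ?_) (by positivity)
    rw [← pow_mul]
    exact pow_le_pow_right₀ h2H (by norm_num)
  exact absurd hl (not_lt.mpr (max_le h1 h2))

/-- **All the cosets of `2 E(ℚ)`**, the points. -/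
theorem points4 (hD : 4 * A ^ 3 + 27 * B ^ 2 ≠ 0) {H : ℕ} (hH : 1 ≤ H) (hA : |A| ≤ H)
    (hB : |B| ≤ H) (N : ℕ) (Q : Fin N → (EC A B).Point)
    (hQ : ∀ P : (EC A B).Point, ∃ i R, P = Q i + (R + R))
    (S : Finset (ℤ × ℤ)) (hS : ∀ p ∈ S, p.2 ^ 2 = p.1 ^ 3 + A * p.1 + B ∧
      (2 * (H : ℝ)) ^ 7 < max |(p.1 : ℝ)| |(p.2 : ℝ)|) : S.card ≤ 96 * N := by
  classical
  have h1 : (S.image Prod.fst).card ≤ 48 * N := by
    refine cosets4 hD hH hA hB one_ne_zero (by ring) (by ring) N Q hQ _ fun x hx => ?_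
    obtain ⟨p, hp, rfl⟩ := mem_image.mp hx
    refine ⟨first_large4 hH hA hB (hS p hp).1 (hS p hp).2, p.2, ?_⟩
    have := (hS p hp).1
    have h2 : ((p.2 : ℤ) : ℚ) ^ 2 = (p.1 : ℚ) ^ 3 + A * p.1 + B := by exact_mod_cast this
    push_cast
    rw [one_mul, h2]
  have h2 : S.card ≤ 2 * (S.image Prod.fst).card := by
    refine card_le_mul_card_image S 2 fun x _ => ?_
    rcases (S.filter fun p => p.1 = x).eq_empty_or_nonempty with h0 | ⟨p, hp⟩
    · rw [h0]; simp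
    have hsub : (S.filter fun q => q.1 = x) ⊆ {(x, p.2), (x, -p.2)} := by
      intro q hq
      obtain ⟨hq1, hq2⟩ := mem_filter.mp hq
      obtain ⟨hp1, hp2⟩ := mem_filter.mp hp
      have e1 := (hS q hq1).1
      have e2 := (hS p hp1).1
      rw [hq2] at e1
      rw [hp2] at e2
      rw [← e2] at e1
      rcases sq_eq_sq_iff_eq_or_eq_neg.mp e1 with h | h
      · simp only [mem_insert, mem_singleton]
        exact Or.inl (Prod.ext hq2 h)
      · simp only [mem_insert, mem_singleton]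
        exact Or.inr (Prod.ext hq2 h)
    exact (card_le_card hsub).trans (card_le_two)
  calc S.card ≤ 2 * (S.image Prod.fst).card := h2
    _ ≤ 2 * (48 * N) := Nat.mul_le_mul_left 2 h1
    _ = 96 * N := by ring

end Pool.Agent.U133.HL
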