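import Pool.Agent.U133.HL.Pos
import Pool.Agent.U133.SE.Hyp
import Pool.Agent.U133.WR.Grp

set_option autoImplicit false

/-!
# Large integral points of Weierstrass curves
-/

namespace Pool.Agent.U133.HL

open Finset Pool.Agent.U133.HP Pool.Agent.U133.SE Pool.Agent.U133.WR

open Pool.Agent.U133.GP (Rt mem_Rt card_Rt SameClass)

variable {A B : ℤ}

lemma cub_c3 : (cub A B).coeff 3 = 1 := by
  have := (cub_monic A B).coeff_natDegree
  rwa [cub_natDegree] at this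

lemma cub_coeff {H : ℕ} (hH : 1 ≤ H) (hA : |A| ≤ H) (hB : |B| ≤ H) (i : ℕ) :
    |(cub A B).coeff i| ≤ H := by
  have hH' : (1 : ℤ) ≤ H := by exact_mod_cast hH
  rcases Nat.lt_or_ge i 4 with h | h
  · interval_cases i
    · rw [cub_c0]; exact hB
    · rw [cub_c1]; exact hA
    · rw [cub_c2, abs_zero]; linarith
    · rw [cub_c3, abs_one]; exact hH'
  · rw [Polynomial.coeff_eq_zero_of_natDegree_lt (by rw [cub_natDegree]; omega), abs_zero]
    linarith

/-- **One class.** -/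
theorem one_class (hD : 4 * A ^ 3 + 27 * B ^ 2 ≠ 0) {H : ℕ} (hH : 1 ≤ H) (hA : |A| ≤ H)
    (hB : |B| ≤ H) (S : Finset ℤ) (s0 : Bool) (hpos : ∀ x ∈ S, decide (0 < x) = s0)
    (hS : ∀ x ∈ S, (2 * (H : ℝ)) ^ 19688 ≤ |(x : ℝ)|)
    (hcl : ∀ x ∈ S, ∀ y ∈ S, SameClass (cub A B) x y) : S.card ≤ 8 := by
  have hs := cub_sep A B hD
  have hf := cub_ne A B
  have hfd := cub_natDegree A B
  have hl := (cub_monic A B).leadingCoeff
  have hfH := cub_coeff hH hA hB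
  have hH1 : (1 : ℝ) ≤ H := by exact_mod_cast hH
  have h2H : (1 : ℝ) ≤ 2 * H := by linarith
  have h2H2 : (2 : ℝ) ≤ 2 * H := by linarith
  have hmono : ∀ k, k ≤ 27 → (2 * (H : ℝ)) ^ k ≤ (2 * (H : ℝ)) ^ 27 :=
    fun k hk => pow_le_pow_right₀ h2H hk
  have hroot : ∀ θ ∈ Rt (cub A B), ‖θ‖ ≤ ((3 : ℕ) : ℝ) * H := by
    intro θ hθ
    have := GP.root_bound hH1 (GP.eqn_Rt hs hf H hfH) hθ
    rwa [card_Rt hs, hfd] at this
  have h4 : (4 : ℝ) ≤ (2 * (H : ℝ)) ^ 27 := by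
    calc (4 : ℝ) = 2 ^ 2 := by norm_num
      _ ≤ (2 * (H : ℝ)) ^ 2 := pow_le_pow_left₀ (by norm_num) h2H2 2
      _ ≤ _ := hmono 2 (by norm_num)
  have h8 : 8 * (H : ℝ) ≤ (2 * (H : ℝ)) ^ 3 := by
    have h1 : (H : ℝ) ≤ (H : ℝ) ^ 3 := by
      calc (H : ℝ) = (H : ℝ) ^ 1 := (pow_one _).symm
        _ ≤ _ := pow_le_pow_right₀ hH1 (by norm_num)
    rw [mul_pow]
    linarith
  have := main3_pos 2 3 le_rfl le_rfl 27 H (cub A B) hfd hs hfH
    (by push_cast; norm_num; linarith) h4 (by push_cast; linarith) ?_ ?_ hroot ?_ ?_ S s0 hpos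
    (fun x hx => ?_) (fun x hx y hy => powerClass_two (hcl x hx y hy))
  · simpa using this
  · calc (1 + 2 * (((3 : ℕ) : ℝ) * H)) ^ 3 ≤ (8 * (H : ℝ)) ^ 3 := by
          refine pow_le_pow_left₀ (by positivity) ?_ 3
          push_cast
          linarith
      _ ≤ ((2 * (H : ℝ)) ^ 3) ^ 3 := pow_le_pow_left₀ (by positivity) h8 3
      _ = (2 * (H : ℝ)) ^ 9 := by rw [← pow_mul]
      _ ≤ _ := hmono 9 (by norm_num)
  · rw [hl, Int.cast_one, abs_one]
    linarith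
  · intro θ hθ
    have h7 := Wt_inv_bound hs hf (by rw [hfd]; norm_num) (ρ := ((3 : ℕ) : ℝ) * H) (h := 1)
      (by push_cast; linarith) hroot le_rfl (by rw [hl]; simp) hθ
    rw [hfd, one_pow, one_mul] at h7
    refine h7.trans ?_
    calc (2 * (((3 : ℕ) : ℝ) * H)) ^ (3 * 3) ≤ (8 * (H : ℝ)) ^ (3 * 3) := by
          refine pow_le_pow_left₀ (by positivity) ?_ _
          push_cast
          linarith
      _ ≤ ((2 * (H : ℝ)) ^ 3) ^ (3 * 3) := pow_le_pow_left₀ (by positivity) h8 _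
      _ = (2 * (H : ℝ)) ^ 27 := by rw [← pow_mul]
  · have h8 := GP.res_bound (cub A B) H hfH (by rw [hfd]; norm_num)
    have h9 : |((Polynomial.resultant (cub A B) (Polynomial.derivative (cub A B)) (cub A B).natDegree
        ((cub A B).natDegree - 1) : ℤ) : ℝ)| ≤ 720 * (3 * ((H : ℝ) + 1)) ^ 6 := by
      have h2 : ((|Polynomial.resultant (cub A B) (Polynomial.derivative (cub A B))
          (cub A B).natDegree ((cub A B).natDegree - 1)| : ℤ) : ℝ) ≤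
          ((((2 * (cub A B).natDegree).factorial : ℤ) *
            (((cub A B).natDegree : ℤ) * (H + 1)) ^ (2 * (cub A B).natDegree) : ℤ) : ℝ) := by
        exact_mod_cast h8
      rw [Int.cast_abs] at h2
      refine h2.trans (le_of_eq ?_)
      rw [hfd]
      push_cast
      norm_num [Nat.factorial]
    rw [hl, Int.cast_one, abs_one, one_pow, mul_one]
    refine h9.trans ?_
    calc 720 * (3 * ((H : ℝ) + 1)) ^ 6 ≤ 720 * (3 * (2 * (H : ℝ))) ^ 6 := by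
          gcongr
          linarith
      _ = 524880 * (2 * (H : ℝ)) ^ 6 := by rw [mul_pow]; ring
      _ ≤ 2 ^ 20 * (2 * (H : ℝ)) ^ 6 := by
          refine mul_le_mul_of_nonneg_right (by norm_num) (by positivity)
      _ ≤ (2 * (H : ℝ)) ^ 20 * (2 * (H : ℝ)) ^ 6 := by
          refine mul_le_mul_of_nonneg_right (pow_le_pow_left₀ (by norm_num) h2H2 20) (by positivity)
      _ = (2 * (H : ℝ)) ^ 26 := by rw [← pow_add]
      _ ≤ _ := hmono 26 (by norm_num)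
  · refine le_trans (le_of_eq ?_) (hS x hx)
    norm_num

/-- the sign of the polynomial at large integers -/
lemma sign_pos {H : ℕ} (hH : 1 ≤ H) (hA : |A| ≤ H) (hB : |B| ≤ H) {x : ℤ}
    (hx : 2 * (H : ℝ) ≤ (x : ℝ)) : 0 < x ^ 3 + A * x + B := by
  have hx' : 2 * (H : ℤ) ≤ x := by exact_mod_cast hx
  have hH1 : (1 : ℤ) ≤ H := by exact_mod_cast hH
  have a1 := (abs_le.mp hA).1
  have b1 := (abs_le.mp hB).1
  have h1 : -(H : ℤ) * x ≤ A * x := mul_le_mul_of_nonneg_right a1 (by linarith)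
  have h2 : 2 * (H : ℤ) * x ≤ x * x := mul_le_mul_of_nonneg_right hx' (by linarith)
  have h3 : x * x * 2 ≤ x * x * x := mul_le_mul_of_nonneg_left (by linarith) (mul_self_nonneg x)
  nlinarith

lemma sign_neg {H : ℕ} (hH : 1 ≤ H) (hA : |A| ≤ H) (hB : |B| ≤ H) {x : ℤ}
    (hx : 2 * (H : ℝ) ≤ -(x : ℝ)) : x ^ 3 + A * x + B < 0 := by
  have h := sign_pos (A := A) (B := -B) (x := -x) hH hA (by rwa [abs_neg]) (by push_cast; exact hx)
  nlinarith

lemma D_twist (hD : 4 * A ^ 3 + 27 * B ^ 2 ≠ 0) {c : ℤ} (hc : c ≠ 0) :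
    4 * (A * c ^ 2) ^ 3 + 27 * (B * c ^ 3) ^ 2 ≠ 0 := by
  have e : 4 * (A * c ^ 2) ^ 3 + 27 * (B * c ^ 3) ^ 2 = c ^ 6 * (4 * A ^ 3 + 27 * B ^ 2) := by ring
  rw [e]
  exact mul_ne_zero (pow_ne_zero _ hc) hD

/-- the classes of a twist -/
lemma twist_class {c : ℤ} (hc : c ≠ 0) {x y : ℤ}
    (h : ∃ Q : Polynomial ℚ, FQ ((A * c ^ 2 : ℤ) : ℚ) ((B * c ^ 3 : ℤ) : ℚ) ∣ Q ^ 2 -
      (Polynomial.C ((c * x : ℤ) : ℚ) - Polynomial.X) * (Polynomial.C ((c * y : ℤ) : ℚ) - Polynomial.X)) :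
    SameClass (cub A B) x y := by
  obtain ⟨Q, R, hR⟩ := h
  have hcQ : (c : ℚ) ≠ 0 := by exact_mod_cast hc
  refine ⟨(c : ℚ) ^ 2, pow_ne_zero _ hcQ, Q.comp (Polynomial.C (c : ℚ) * Polynomial.X), ?_⟩
  have h1 := congrArg (fun P : Polynomial ℚ => P.comp (Polynomial.C (c : ℚ) * Polynomial.X)) hR
  simp only [FQ, Polynomial.sub_comp, Polynomial.mul_comp, Polynomial.pow_comp, Polynomial.C_comp,
    Polynomial.X_comp, Polynomial.add_comp] at h1
  refine ⟨Polynomial.C ((c : ℚ) ^ 3) * R.comp (Polynomial.C (c : ℚ) * Polynomial.X), ?_⟩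
  rw [cub_map]
  push_cast at h1
  simp only [Polynomial.C_mul, Polynomial.C_pow] at h1 ⊢
  linear_combination h1

/-- **All the cosets of `2 E_c(ℚ)`, for all the quadratic twists.** -/
theorem all_cosets (hD : 4 * A ^ 3 + 27 * B ^ 2 ≠ 0) {H : ℕ} (hH : 1 ≤ H) (hA : |A| ≤ H)
    (hB : |B| ≤ H) {c : ℤ} (hc : c ≠ 0) (N : ℕ) (Q : Fin N → (EC (A * c ^ 2) (B * c ^ 3)).Point)
    (hQ : ∀ P : (EC (A * c ^ 2) (B * c ^ 3)).Point, ∃ i R, P = Q i + (R + R))
    (S : Finset ℤ) (hS : ∀ x ∈ S, (2 * (H : ℝ)) ^ 19688 ≤ |(x : ℝ)| ∧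
      ∃ y : ℚ, c * y ^ 2 = x ^ 3 + A * x + B) : S.card ≤ 8 * N := by
  classical
  have hD' := D_twist hD hc
  have hcQ : (c : ℚ) ≠ 0 := by exact_mod_cast hc
  have hH1 : (1 : ℝ) ≤ H := by exact_mod_cast hH
  have h2H : (1 : ℝ) ≤ 2 * H := by linarith
  have hbig : ∀ x ∈ S, 2 * (H : ℝ) ≤ |(x : ℝ)| := by
    intro x hx
    refine le_trans ?_ (hS x hx).1
    calc 2 * (H : ℝ) = (2 * (H : ℝ)) ^ 1 := (pow_one _).symm
      _ ≤ _ := pow_le_pow_right₀ h2H (by norm_num)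
  -- the sign
  have hsgn : ∀ x ∈ S, decide (0 < x) = decide (0 < c) := by
    intro x hx
    obtain ⟨-, y, hy⟩ := hS x hx
    have hb := hbig x hx
    have hfx : ((x ^ 3 + A * x + B : ℤ) : ℚ) = c * y ^ 2 := by push_cast; exact hy.symm
    rw [decide_eq_decide]
    rcases lt_or_ge 0 (x : ℝ) with h0 | h0
    · rw [abs_of_pos h0] at hb
      have h1 := sign_pos hH hA hB hb
      have h2 : (0 : ℚ) < c * y ^ 2 := by rw [← hfx]; exact_mod_cast h1
      have h3 : (0 : ℚ) < c := by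
        by_contra hcc
        push Not at hcc
        have := mul_nonpos_of_nonpos_of_nonneg hcc (sq_nonneg y)
        linarith
      exact ⟨fun _ => by exact_mod_cast h3, fun _ => by exact_mod_cast h0⟩
    · rw [abs_of_nonpos h0] at hb
      have h1 := sign_neg hH hA hB hb
      have h2 : c * y ^ 2 < (0 : ℚ) := by rw [← hfx]; exact_mod_cast h1
      have h3 : (c : ℚ) < 0 := by
        by_contra hcc
        push Not at hcc
        have := mul_nonneg hcc (sq_nonneg y)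
        linarith
      have h4 : c < 0 := by exact_mod_cast h3
      have h5 : x ≤ 0 := by exact_mod_cast h0
      exact ⟨fun h => absurd h (not_lt.mpr h5), fun h => absurd h (not_lt.mpr h4.le)⟩
  have hex : ∀ x ∈ S, ∃ (i : Fin N) (y : ℚ) (h : (EC (A * c ^ 2) (B * c ^ 3)).Nonsingular
      ((c * x : ℤ) : ℚ) y) (R : (EC (A * c ^ 2) (B * c ^ 3)).Point),
      WeierstrassCurve.Affine.Point.some ((c * x : ℤ) : ℚ) y h = Q i + (R + R) := by
    intro x hx
    obtain ⟨-, y, hy⟩ := hS x hx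
    have h1 : ((c : ℚ) ^ 2 * y) ^ 2 = (((c * x : ℤ) : ℚ)) ^ 3 + ((A * c ^ 2 : ℤ) : ℚ) *
        ((c * x : ℤ) : ℚ) + ((B * c ^ 3 : ℤ) : ℚ) := by
      push_cast
      linear_combination (c : ℚ) ^ 3 * hy
    obtain ⟨i, R, h2⟩ := hQ (WeierstrassCurve.Affine.Point.some _ _ (nonsing hD' h1))
    exact ⟨i, _, nonsing hD' h1, R, h2⟩
  rcases S.eq_empty_or_nonempty with rfl | ⟨x₁, hx₁⟩
  · simp
  have hN : Nonempty (Fin N) := ⟨(hex x₁ hx₁).choose⟩
  choose! i hi using hex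
  have hfib : ∀ j : Fin N, (S.filter fun x => i x = j).card ≤ 8 := by
    intro j
    refine one_class hD hH hA hB _ _ (fun x hx => hsgn x (mem_filter.mp hx).1)
      (fun x hx => (hS x (mem_filter.mp hx).1).1) ?_
    intro x hx y hy
    by_cases hxy : x = y
    · subst hxy
      exact sameClass_of ⟨Polynomial.C (x : ℚ) - Polynomial.X, by
        rw [← sq, sub_self]; exact dvd_zero _⟩
    · obtain ⟨hx1, hx2⟩ := mem_filter.mp hx
      obtain ⟨hy1, hy2⟩ := mem_filter.mp hy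
      obtain ⟨u, hu, R, hR⟩ := hi x hx1
      obtain ⟨v, hv, R', hR'⟩ := hi y hy1
      have hne : ((c * x : ℤ) : ℚ) ≠ ((c * y : ℤ) : ℚ) := by
        intro h
        have h1 : c * x = c * y := by exact_mod_cast h
        exact hxy (mul_left_cancel₀ hc h1)
      refine twist_class hc (same hD' hu hv hne (R - R') ?_)
      rw [hR, hR', hx2, hy2]
      abel
  calc S.card = ∑ j : Fin N, (S.filter fun x => i x = j).card :=
        card_eq_sum_card_fiberwise (fun x _ => mem_coe.mpr (mem_univ _))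
    _ ≤ ∑ _j : Fin N, 8 := sum_le_sum fun j _ => hfib j
    _ = 8 * N := by rw [sum_const, card_univ, Fintype.card_fin, smul_eq_mul]; ring

theorem all_cosets' (hD : 4 * A ^ 3 + 27 * B ^ 2 ≠ 0) {H : ℕ} (hH : 1 ≤ H) (hA : |A| ≤ H)
    (hB : |B| ≤ H) {c : ℤ} (hc : c ≠ 0) {A' B' : ℤ} (hA' : A' = A * c ^ 2) (hB' : B' = B * c ^ 3)
    (N : ℕ) (Q : Fin N → (EC A' B').Point)
    (hQ : ∀ P : (EC A' B').Point, ∃ i R, P = Q i + (R + R))
    (S : Finset ℤ) (hS : ∀ x ∈ S, (2 * (H : ℝ)) ^ 19688 ≤ |(x : ℝ)| ∧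
      ∃ y : ℚ, c * y ^ 2 = x ^ 3 + A * x + B) : S.card ≤ 8 * N := by
  subst hA' hB'
  exact all_cosets hD hH hA hB hc N Q hQ S hS

/-- large integral points have large positive first coordinates -/
lemma first_large {H : ℕ} (hH : 1 ≤ H) (hA : |A| ≤ H) (hB : |B| ≤ H) {x y : ℤ}
    (h : y ^ 2 = x ^ 3 + A * x + B) (hl : (2 * (H : ℝ)) ^ 29533 < max |(x : ℝ)| |(y : ℝ)|) :
    (2 * (H : ℝ)) ^ 19688 ≤ (x : ℝ) := by
  have hH1 : (1 : ℝ) ≤ H := by exact_mod_cast hH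
  have h2H : (1 : ℝ) ≤ 2 * H := by linarith
  have hA' : |(A : ℝ)| ≤ H := by exact_mod_cast hA
  have hB' : |(B : ℝ)| ≤ H := by exact_mod_cast hB
  have hR : (y : ℝ) ^ 2 = (x : ℝ) ^ 3 + A * x + B := by exact_mod_cast h
  by_contra hcon
  push Not at hcon
  set T : ℝ := (2 * (H : ℝ)) ^ 19688 with hT
  have hT2 : 2 * (H : ℝ) ≤ T := by
    calc 2 * (H : ℝ) = (2 * (H : ℝ)) ^ 1 := (pow_one _).symm
      _ ≤ _ := pow_le_pow_right₀ h2H (by norm_num)
  have hT0 : 0 < T := by linarith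
  -- the first coordinate is small
  have hxT : |(x : ℝ)| ≤ T := by
    rw [abs_le]
    refine ⟨?_, hcon.le⟩
    by_contra hneg
    push Not at hneg
    have h1 : (x : ℝ) < -(2 * H) := by linarith
    have h2 : 0 ≤ (y : ℝ) ^ 2 := sq_nonneg _
    have h3 : (A : ℝ) * x ≤ H * (-x) := by
      have := abs_le.mp hA'
      nlinarith
    have h4 : (B : ℝ) ≤ H := (abs_le.mp hB').2
    have h5 : (2 * (H : ℝ)) ^ 2 ≤ x ^ 2 := by nlinarith
    have h6 : (x : ℝ) ^ 3 ≤ (2 * (H : ℝ)) ^ 2 * x := by nlinarith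
    nlinarith
  have hyT : (y : ℝ) ^ 2 ≤ (2 * (H : ℝ)) ^ 59065 := by
    have e : (2 * (H : ℝ)) ^ 59065 = 2 * H * T ^ 3 := by
      rw [hT, ← pow_mul, ← pow_succ']
    rw [e, hR]
    have h1 : (x : ℝ) ^ 3 ≤ T ^ 3 := by
      have : (x : ℝ) ^ 3 ≤ |(x : ℝ)| ^ 3 := by
        rw [← abs_pow]; exact le_abs_self _
      exact this.trans (pow_le_pow_left₀ (abs_nonneg _) hxT 3)
    have h2 : (A : ℝ) * x ≤ H * T := by
      calc (A : ℝ) * x ≤ |(A : ℝ) * x| := le_abs_self _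
        _ = |(A : ℝ)| * |(x : ℝ)| := abs_mul _ _
        _ ≤ _ := mul_le_mul hA' hxT (abs_nonneg _) (by linarith)
    have h3 : (B : ℝ) ≤ H := (le_abs_self _).trans hB'
    have h4 : 2 * H * T ≤ T ^ 2 := by nlinarith
    have h5 : (2 : ℝ) ≤ T := by linarith
    have h6 : T ^ 2 * 2 ≤ T ^ 3 := by nlinarith [sq_nonneg T]
    have h7 : T ^ 3 * 1 ≤ T ^ 3 * H := mul_le_mul_of_nonneg_left hH1 (by positivity)
    have h8 : H * 2 ≤ H * T := mul_le_mul_of_nonneg_left h5 (by linarith)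
    nlinarith
  have h1 : |(x : ℝ)| ≤ (2 * (H : ℝ)) ^ 29533 :=
    hxT.trans (pow_le_pow_right₀ h2H (by norm_num))
  have h2 : |(y : ℝ)| ≤ (2 * (H : ℝ)) ^ 29533 := by
    refine abs_le_of_sq_le_sq (hyT.trans ?_) (by positivity)
    rw [← pow_mul]
    exact pow_le_pow_right₀ h2H (by norm_num)
  exact absurd hl (not_lt.mpr (max_le h1 h2))

/-- **All the cosets of `2 E(ℚ)`**, the points. -/
theorem all_points (hD : 4 * A ^ 3 + 27 * B ^ 2 ≠ 0) {H : ℕ} (hH : 1 ≤ H) (hA : |A| ≤ H)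
    (hB : |B| ≤ H) (N : ℕ) (Q : Fin N → (EC A B).Point)
    (hQ : ∀ P : (EC A B).Point, ∃ i R, P = Q i + (R + R))
    (S : Finset (ℤ × ℤ)) (hS : ∀ p ∈ S, p.2 ^ 2 = p.1 ^ 3 + A * p.1 + B ∧
      (2 * (H : ℝ)) ^ 29533 < max |(p.1 : ℝ)| |(p.2 : ℝ)|) : S.card ≤ 16 * N := by
  classical
  have h1 : (S.image Prod.fst).card ≤ 8 * N := by
    refine all_cosets' hD hH hA hB one_ne_zero (by ring) (by ring) N Q hQ _ fun x hx => ?_
    obtain ⟨p, hp, rfl⟩ := mem_image.mp hx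
    refine ⟨(first_large hH hA hB (hS p hp).1 (hS p hp).2).trans (le_abs_self _), p.2, ?_⟩
    have := (hS p hp).1
    have h2 : ((p.2 : ℤ) : ℚ) ^ 2 = (p.1 : ℚ) ^ 3 + A * p.1 + B := by exact_mod_cast this
    push_cast
    rw [one_mul, h2]
  have h2 : S.card ≤ 2 * (S.image Prod.fst).card := by
    refine card_le_mul_card_image S 2 fun x _ => ?_
    rcases (S.filter fun p => p.1 = x).eq_empty_or_nonempty with h0 | ⟨p, hp⟩
    · rw [h0]; simp
    have hsub : (S.filter fun q => q.1 = x) ⊆ {(x, p.2), (x, -p.2)} := by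
      intro q hq
      obtain ⟨hq1, hq2⟩ := mem_filter.mp hq
      obtain ⟨hp1, hp2⟩ := mem_filter.mp hp
      have e1 := (hS q hq1).1
      have e2 := (hS p hp1).1
      rw [hq2] at e1
      rw [hp2] at e2
      rw [← e2] at e1
      rcases sq_eq_sq_iff_eq_or_eq_neg.mp e1 with h | h
      · simp only [mem_insert, mem_singleton]
        exact Or.inl (Prod.ext hq2 h)
      · simp only [mem_insert, mem_singleton]
        exact Or.inr (Prod.ext hq2 h)
    exact (card_le_card hsub).trans (card_le_two)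
  calc S.card ≤ 2 * (S.image Prod.fst).card := h2
    _ ≤ 2 * (8 * N) := Nat.mul_le_mul_left 2 h1
    _ = 16 * N := by ring

/-- a set all of whose finite subsets are small -/
lemma encard_le {α : Type*} {s : Set α} {n : ℕ} (h : ∀ t : Finset α, (∀ x ∈ t, x ∈ s) → t.card ≤ n) :
    s.encard ≤ n := by
  by_cases hf : s.Finite
  · rw [hf.encard_eq_coe_toFinset_card]
    exact_mod_cast h _ fun x hx => hf.mem_toFinset.mp hx
  · exfalso
    obtain ⟨t, ht, hc⟩ := Set.Infinite.exists_subset_card_eq (s := s) hf (n + 1)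
    have := h t fun x hx => ht (mem_coe.mpr hx)
    omega

end Pool.Agent.U133.HL
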