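import Pool.Agent.U133.SE.Gen

set_option autoImplicit false

/-!
# Integers of the same sign in one class
-/

namespace Pool.Agent.U133.SE

open Finset Pool.Agent.U133.HP

open Pool.Agent.U133.GP (Rt mem_Rt card_Rt prod_Rt deriv_Rt sgr sgr_sq sgr_mul Wt)

/-- **The theorem for genus one and more**, for integers of the same sign, with the exponent in terms
of an exponent for the constants. -/
theorem main3_pos (m d : ℕ) (hm : 2 ≤ m) (hd3 : 3 ≤ d) (K : ℕ)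
    (H : ℕ) (f : Polynomial ℤ) (hfd : f.natDegree = d)
    (hs : (Polynomial.map (Int.castRingHom ℚ) f).Separable)
    (hfH : ∀ i, |f.coeff i| ≤ H)
    (hmG : (m : ℝ) ^ 2 ≤ (2 * (H : ℝ)) ^ K)
    (hG4 : 4 ≤ (2 * (H : ℝ)) ^ K) (hdG : (d : ℝ) ≤ (2 * (H : ℝ)) ^ K)
    (hρG : (1 + 2 * ((d : ℝ) * H)) ^ d ≤ (2 * (H : ℝ)) ^ K)
    (hlG : |(f.leadingCoeff : ℝ)| ≤ (2 * (H : ℝ)) ^ K)
    (hroot : ∀ θ ∈ Rt f, ‖θ‖ ≤ (d : ℝ) * H)
    (hW : ∀ θ ∈ Rt f, ‖(GP.Wt (Rt f) θ)⁻¹‖ ≤ (2 * (H : ℝ)) ^ K)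
    (hE : |((Polynomial.resultant f (Polynomial.derivative f) f.natDegree (f.natDegree - 1) : ℤ) : ℝ)| *
        |(f.leadingCoeff : ℝ)| ^ d ≤ (2 * (H : ℝ)) ^ K)
    (S : Finset ℤ) (s0 : Bool) (hpos : ∀ x ∈ S, decide (0 < x) = s0)
    (hS : ∀ x ∈ S, (2 * (H : ℝ)) ^ (K * (8 * (m * (4 * d + 33) + 1)) + K + 5) ≤ |(x : ℝ)|)
    (hcl : ∀ x ∈ S, ∀ y ∈ S, PowerClass m f x y) : S.card ≤ 2 * m ^ (d - 1) := by
  classical
  have hf : f ≠ 0 := by rintro rfl; simp at hfd; omega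
  have hH : 1 ≤ H := by
    have h1 := hfH f.natDegree
    have h2 := Int.one_le_abs (Polynomial.leadingCoeff_ne_zero.mpr hf)
    have h3 : (1 : ℤ) ≤ H := h2.trans h1
    exact_mod_cast h3
  have hH1 : (1 : ℝ) ≤ H := by exact_mod_cast hH
  have h2H : (1 : ℝ) ≤ 2 * H := by linarith
  have h2H2 : (2 : ℝ) ≤ 2 * H := by linarith
  set X₀ : ℝ := (2 * (H : ℝ)) ^ (K * (8 * (m * (4 * d + 33) + 1)) + K + 5) with hX₀
  set G : ℝ := (2 * (H : ℝ)) ^ K with hG
  have hdR : (3 : ℝ) ≤ d := by exact_mod_cast hd3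
  have hdH : 1 ≤ (d : ℝ) * H := by
    calc (1 : ℝ) = 1 * 1 := by ring
      _ ≤ (d : ℝ) * H := mul_le_mul (by linarith) hH1 (by norm_num) (by linarith)
  have hX₀K : G ^ (8 * (m * (4 * d + 33) + 1)) ≤ X₀ := by
    rw [hG, ← pow_mul]
    exact pow_le_pow_right₀ h2H (by omega)
  have hX₀ρ : 6 * ((d : ℝ) * H) ≤ X₀ := by
    have h1 : 1 + 2 * ((d : ℝ) * H) ≤ G := by
      refine le_trans ?_ hρG
      have := pow_le_pow_right₀ (a := 1 + 2 * ((d : ℝ) * H)) (by linarith) (by omega : 1 ≤ d)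
      rwa [pow_one] at this
    have h2 : G * 2 ^ 5 ≤ X₀ := by
      calc G * 2 ^ 5 ≤ (2 * (H : ℝ)) ^ K * (2 * (H : ℝ)) ^ 5 :=
            mul_le_mul_of_nonneg_left (pow_le_pow_left₀ (by norm_num) h2H2 5) (by positivity)
        _ = (2 * (H : ℝ)) ^ (K + 5) := (pow_add _ _ _).symm
        _ ≤ _ := pow_le_pow_right₀ h2H (by omega)
    linarith
  have hbig : ∀ x ∈ S, ∀ θ ∈ Rt f, ‖θ‖ < |(x : ℝ)| := by
    intro x hx θ hθ
    have h1 := hS x hx
    have h2 := hroot θ hθ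
    linarith
  have hSne : ∀ x ∈ S, (x : ℤ) ≠ 0 := by
    rintro x hx rfl
    have h1 := hS 0 hx
    simp at h1
    linarith
  by_contra hcon
  push Not at hcon
  obtain ⟨x₀, hx₀⟩ : S.Nonempty := card_pos.mp ((Nat.zero_le _).trans_lt hcon)
  have hx₀' : f.eval x₀ ≠ 0 := by
    intro h0
    have h1 : (x₀ : ℂ) ∈ Rt f := by
      rw [mem_Rt hf]
      have : Polynomial.aeval ((x₀ : ℤ) : ℂ) f = ((f.eval x₀ : ℤ) : ℂ) := by
        rw [Polynomial.aeval_def]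
        have := Polynomial.eval₂_at_intCast (Int.castRingHom ℂ) (p := f) x₀
        simpa using this
      rw [this, h0]; simp
    have h2 := hbig x₀ hx₀ _ h1
    rw [Complex.norm_intCast] at h2
    exact lt_irrefl _ h2
  choose! b hb B hB using fun x hx => hcl x₀ hx₀ x hx
  obtain ⟨θs, hθs⟩ : (Rt f).Nonempty := card_pos.mp (by rw [card_Rt hs]; omega)
  have hcard : (Rt f).card = d := by rw [card_Rt hs, hfd]
  have hx₀C : (x₀ : ℂ) ≠ 0 := by exact_mod_cast hSne x₀ hx₀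
  have hfac : ∀ x ∈ S, ∀ θ : ℂ, (x : ℂ) - θ = x * (1 - θ / x) := by
    intro x hx θ
    have : (x : ℂ) ≠ 0 := by exact_mod_cast hSne x hx
    field_simp
  have hone : ∀ x ∈ S, ∀ θ ∈ Rt f, 1 - θ / (x : ℂ) ≠ 0 := by
    intro x hx θ hθ
    apply one_sub_ne
    rw [Complex.norm_intCast]
    exact hbig x hx θ hθ
  have hvne : ∀ x ∈ S, ∀ θ ∈ Rt f, vv m x θ ≠ 0 := by
    intro x hx θ hθ h0
    have h2 := vv_pow hm (x := (x : ℂ)) (θ := θ)
    rw [h0, zero_pow (by omega)] at h2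
    exact pow_ne_zero _ (hone x hx θ hθ) h2.symm
  have hwne : ∀ x ∈ S, ∀ θ ∈ Rt f, ww m x θ ≠ 0 := by
    intro x hx θ hθ h0
    have h2 := ww_pow hm (x := (x : ℂ)) (θ := θ)
    rw [h0, zero_pow (by omega)] at h2
    exact hone x hx θ hθ h2.symm
  set q : ℤ → ℂ → ℂ := fun x θ => Polynomial.aeval θ (B x) / (vv m x₀ θ * ww m x θ) with hq
  have hqm : ∀ x ∈ S, ∀ θ ∈ Rt f, q x θ ^ m = b x * ((x₀ : ℂ) ^ (m - 1) * x) := by
    intro x hx θ hθ
    have h1 := PowerClass.eval hf (hB x hx) hθ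
    simp only [hq]
    rw [div_pow, h1, mul_pow, vv_pow hm, ww_pow hm, div_eq_iff (mul_ne_zero
      (pow_ne_zero _ (hone x₀ hx₀ θ hθ)) (hone x hx θ hθ)), hfac x hx θ, hfac x₀ hx₀ θ, mul_pow]
    ring
  have hq0 : ∀ x ∈ S, ∀ θ ∈ Rt f, q x θ ≠ 0 := by
    intro x hx θ hθ h0
    have h1 := hqm x hx θ hθ
    rw [h0, zero_pow (by omega)] at h1
    have h2 : (x : ℂ) ≠ 0 := by exact_mod_cast hSne x hx
    have h3 : ((b x : ℚ) : ℂ) ≠ 0 := by exact_mod_cast hb x hx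
    exact mul_ne_zero h3 (mul_ne_zero (pow_ne_zero _ hx₀C) h2) h1.symm
  set U := Polynomial.nthRootsFinset m (1 : ℂ) with hU
  set code : ℤ → Bool × ({θ : ℂ // θ ∈ (Rt f).erase θs} → ℂ) := fun x => (decide (0 < x),
    fun θ => q x θ / q x θs) with hcode
  set tt : Finset (Bool × ({θ : ℂ // θ ∈ (Rt f).erase θs} → ℂ)) := ({s0} : Finset Bool) ×ˢ
      Fintype.piFinset (fun _ : {θ : ℂ // θ ∈ (Rt f).erase θs} => U) with htt
  have htcard : tt.card ≤ m ^ (d - 1) := by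
    rw [htt, card_product, Fintype.card_piFinset, prod_const, card_singleton, one_mul,
        card_univ, Fintype.card_coe, card_erase_of_mem hθs, hcard]
    exact Nat.pow_le_pow_left (card_roots_unity m) _
  have hmaps : ∀ x ∈ S, code x ∈ tt := by
    intro x hx
    rw [htt, mem_product]
    refine ⟨by simp only [hcode, mem_singleton]; exact hpos x hx, ?_⟩
    rw [Fintype.mem_piFinset]
    intro θ
    have hθ := (mem_erase.mp θ.2).2
    simp only [hcode]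
    rw [hU, Polynomial.mem_nthRootsFinset (by omega), div_pow, hqm x hx _ hθ,
      hqm x hx _ hθs, div_self]
    rw [← hqm x hx _ hθs]
    exact pow_ne_zero _ (hq0 x hx _ hθs)
  obtain ⟨cd, _, hcd⟩ := exists_lt_card_fiber_of_mul_lt_card_of_maps_to (n := 2) hmaps (by
    refine lt_of_le_of_lt ?_ hcon
    calc tt.card * 2 ≤ (m ^ (d - 1)) * 2 := Nat.mul_le_mul_right 2 htcard
      _ = 2 * m ^ (d - 1) := by ring)
  -- the main argument
  have key : ∀ x ∈ S, ∀ y ∈ S, code x = code y → sgr y = sgr x ∧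
      ∀ P : Polynomial ℚ, ∃ q : ℚ,
        (∑ θ ∈ Rt f, vv m x θ * ww m y θ * Polynomial.aeval θ P) ^ m = (q : ℂ) := by
    intro x hx y hy hc
    simp only [hcode, Prod.mk.injEq, decide_eq_decide] at hc
    obtain ⟨hsg, hfun⟩ := hc
    have hsgr : sgr y = sgr x := by
      rw [sgr, sgr]
      by_cases h : 0 < x
      · rw [if_pos h, if_pos (hsg.mp h)]
      · rw [if_neg h, if_neg (fun h' => h (hsg.mpr h'))]
    have hprod : ∀ θ ∈ Rt f, q x θ ^ (m - 1) * q y θ = q x θs ^ (m - 1) * q y θs := by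
      intro θ hθ
      by_cases he : θ = θs
      · rw [he]
      have h1 := congrFun hfun ⟨θ, mem_erase.mpr ⟨he, hθ⟩⟩
      simp only at h1
      have hx1 := hq0 x hx θs hθs
      have hy1 := hq0 y hy θs hθs
      set ζ := q x θ / q x θs with hζ
      have h2 : q x θ = ζ * q x θs := by rw [hζ, div_mul_cancel₀ _ hx1]
      have h3 : q y θ = ζ * q y θs := by rw [h1, div_mul_cancel₀ _ hy1]
      have h4 : ζ ^ m = 1 := by
        rw [hζ, div_pow, hqm x hx _ hθ, hqm x hx _ hθs, div_self]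
        rw [← hqm x hx _ hθs]
        exact pow_ne_zero _ hx1
      have h5 : ζ ^ (m - 1) * ζ = 1 := by
        rw [← pow_succ, show m - 1 + 1 = m by omega, h4]
      rw [h2, h3, mul_pow]
      linear_combination (q x θs ^ (m - 1) * q y θs) * h5
    set c : ℂ := q x θs ^ (m - 1) * q y θs / (x₀ : ℂ) ^ (m - 1) with hcdef
    have hx₀p : (x₀ : ℂ) ^ (m - 1) ≠ 0 := pow_ne_zero _ hx₀C
    have hc2 : c ^ m = ((b x ^ (m - 1) * b y * x ^ (m - 1) * y : ℚ) : ℂ) := by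
      rw [hcdef, div_pow, mul_pow, ← pow_mul, mul_comm (m - 1) m, pow_mul, hqm x hx θs hθs,
        hqm y hy θs hθs, div_eq_iff (pow_ne_zero _ hx₀p)]
      have e1 : ((x₀ : ℂ) ^ (m - 1)) ^ m = ((x₀ : ℂ) ^ (m - 1)) ^ (m - 1) * (x₀ : ℂ) ^ (m - 1) := by
        rw [← pow_succ, show m - 1 + 1 = m by omega]
      rw [e1, mul_pow, mul_pow]
      push_cast
      ring
    have hb0 : b x ^ (m - 1) * b y * x ^ (m - 1) * y ≠ 0 := by
      have h1 : (x : ℚ) ≠ 0 := by exact_mod_cast hSne x hx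
      have h2 : (y : ℚ) ≠ 0 := by exact_mod_cast hSne y hy
      exact mul_ne_zero (mul_ne_zero (mul_ne_zero (pow_ne_zero _ (hb x hx)) (hb y hy))
        (pow_ne_zero _ h1)) h2
    have hBB : ∀ θ ∈ Rt f, Polynomial.aeval θ (B x ^ (m - 1) * B y) =
        c * (((x₀ : ℂ) - θ) ^ (m - 1) * (vv m x θ * ww m y θ)) := by
      intro θ hθ
      have h1 := hprod θ hθ
      have h2 : Polynomial.aeval θ (B x) = q x θ * (vv m x₀ θ * ww m x θ) := by
        simp only [hq]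
        rw [div_mul_cancel₀ _ (mul_ne_zero (hvne x₀ hx₀ θ hθ) (hwne x hx θ hθ))]
      have h3 : Polynomial.aeval θ (B y) = q y θ * (vv m x₀ θ * ww m y θ) := by
        simp only [hq]
        rw [div_mul_cancel₀ _ (mul_ne_zero (hvne x₀ hx₀ θ hθ) (hwne y hy θ hθ))]
      have h4 := ww_pred hm (x := (x : ℂ)) (θ := θ)
      have h5 : vv m x₀ θ ^ (m - 1) * vv m x₀ θ = (1 - θ / (x₀ : ℂ)) ^ (m - 1) := by
        rw [← pow_succ, show m - 1 + 1 = m by omega, vv_pow hm]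
      have h7 : c * (x₀ : ℂ) ^ (m - 1) = q x θs ^ (m - 1) * q y θs := by
        rw [hcdef, div_mul_cancel₀ _ hx₀p]
      rw [map_mul, map_pow, h2, h3, hfac x₀ hx₀ θ, mul_pow (x₀ : ℂ)]
      calc (q x θ * (vv m x₀ θ * ww m x θ)) ^ (m - 1) * (q y θ * (vv m x₀ θ * ww m y θ))
          = (q x θ ^ (m - 1) * q y θ) * (vv m x₀ θ ^ (m - 1) * vv m x₀ θ) *
            (ww m x θ ^ (m - 1) * ww m y θ) := by rw [mul_pow, mul_pow]; ring
        _ = (c * (x₀ : ℂ) ^ (m - 1)) * (1 - θ / (x₀ : ℂ)) ^ (m - 1) *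
            (vv m x θ * ww m y θ) := by rw [h1, h7, h5, h4]
        _ = _ := by ring
    refine ⟨hsgr, ?_⟩
    intro P
    obtain ⟨W, hWp⟩ := Ra_Wt hs hf
    obtain ⟨r, hr⟩ := rat_pow m hf hs (B x ^ (m - 1) * B y * (P * W)) x₀ hx₀' (m - 1)
      (fun θ => vv m x θ * ww m y θ * (Polynomial.aeval θ P * GP.Wt (Rt f) θ)) c
      (b x ^ (m - 1) * b y * x ^ (m - 1) * y) hb0 hc2 (by
        intro θ hθ
        rw [map_mul, hBB θ hθ, map_mul, hWp θ hθ]
        ring)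
    refine ⟨r, ?_⟩
    rw [← hr]
    congr 1
    refine sum_congr rfl fun θ hθ => ?_
    have := GP.Wt_ne (R := Rt f) θ
    field_simp
  have hne : ∀ x ∈ S, ∀ y ∈ S, x ≠ y → code x = code y → |(x : ℝ)| ≠ |(y : ℝ)| := by
    intro x hx y hy hxy hxyc h
    have hsg : (0 < x ↔ 0 < y) := by
      have := hxyc
      simp only [hcode, Prod.mk.injEq, decide_eq_decide] at this
      exact this.1
    have h1 : |x| = |y| := by
      have : ((|x| : ℤ) : ℝ) = ((|y| : ℤ) : ℝ) := by push_cast; exact h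
      exact_mod_cast this
    have hx0 := hSne x hx
    have hy0 := hSne y hy
    rcases abs_eq_abs.mp h1 with h2 | h2
    · exact hxy h2
    · by_cases h3 : 0 < x
      · have := hsg.mp h3; omega
      · have h4 : ¬ 0 < y := fun h => h3 (hsg.mpr h)
        omega
  have fin : ∀ x ∈ S, ∀ y ∈ S, ∀ z ∈ S, code x = code y → code y = code z →
      |(x : ℝ)| < |(y : ℝ)| → |(y : ℝ)| < |(z : ℝ)| → False := by
    intro x hx y hy z hz h1 h2 h3 h4
    obtain ⟨k1, k2⟩ := key x hx y hy h1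
    obtain ⟨k3, k4⟩ := key y hy z hz h2
    obtain ⟨_, k6⟩ := key x hx z hz (h1.trans h2)
    exact triple hm hd3 H hH hf hfd hs hfH hG4 hmG hdG hρG hlG hroot hW hE x y z h3 h4 k1 k3
      (hX₀ρ.trans (hS x hx)) (hX₀K.trans (hS x hx)) k2 k4 k6
  obtain ⟨x, hx, y, hy, z, hz, hxy, hxz, hyz⟩ := two_lt_card.mp hcd
  rw [mem_filter] at hx hy hz
  obtain ⟨hx, cx⟩ := hx
  obtain ⟨hy, cy⟩ := hy
  obtain ⟨hz, cz⟩ := hz
  have cxy : code x = code y := cx.trans cy.symm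
  have cyz : code y = code z := cy.trans cz.symm
  have cxz : code x = code z := cx.trans cz.symm
  rcases lt_or_gt_of_ne (hne x hx y hy hxy cxy) with h1 | h1 <;>
    rcases lt_or_gt_of_ne (hne y hy z hz hyz cyz) with h2 | h2 <;>
    rcases lt_or_gt_of_ne (hne x hx z hz hxz cxz) with h3 | h3
  · exact fin x hx y hy z hz cxy cyz h1 h2
  · linarith
  · exact fin x hx z hz y hy cxz cyz.symm h3 h2
  · exact fin z hz x hx y hy cxz.symm cxy h3 h1
  · exact fin y hy x hx z hz cxy.symm cxz h1 h3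
  · exact fin y hy z hz x hx cyz cxz.symm h2 h3
  · linarith
  · exact fin z hz y hy x hx cyz.symm cxy.symm h2 h1

end Pool.Agent.U133.SE
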